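import Pool.Agent.P07.SquierMachine
import Pool.Agent.OneRel.Universal

/-!
# The rank of the abelianisation of a diagram group is not computable

All definitions (words, presentations, the Squier complex, diagram groups, the rank) are in
`Pool/Agent/P07/SquierDef.lean`.
-/

open Pool.Agent.P07.Squier Pool.Agent.P07.Trash Turing

namespace Pool.Agent.Results.MP_a5725c_al.RankNotComputable

/-- The value in `{0, 1, 2, …} ∪ {∞}` described by an output: `some k` is `k` and `none` is `∞`. -/
def value (r : Option ℕ) : ℕ∞ := r.elim ⊤ (fun k => (k : ℕ∞))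

theorem value_eq_zero (r : Option ℕ) : value r = 0 ↔ r = some 0 := by
  cases r <;> simp [value]

/-- There is one finite semigroup presentation `(n, R)` such that every algorithm `F` (a partial
recursive function taking a presentation and a base word) fails to output the rank of the
abelianisation of the diagram group `D((n, R), w)` for some word `w`. -/
theorem result : ∃ (n : ℕ) (R : List (List ℕ × List ℕ)), IsPresentation n R ∧
    ∀ F : ℕ × List (List ℕ × List ℕ) × List ℕ →. Option ℕ, Partrec F →
      ∃ (w : List ℕ) (hw : IsWord n w),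
        ∀ r ∈ F (n, R, w), value r ≠ rankAb (D (⟨w, hw⟩ : Vertex n R)) := by
  obtain ⟨Γ, Λ, i1, i2, i3, i4, i5, M, g0, gb, hM⟩ := Pool.Agent.OneRel.exists_universal
  let E := stdEnc Γ Λ
  let inp : ℕ → List Γ := fun k => g0 :: (Nat.bits k).reverse.map gb
  let W : ℕ → List ℕ := fun k => word E (initCf (inp k) : Cf Γ Λ)
  refine ⟨_, rels E M, isPresentation_rels E M, ?_⟩
  intro F hF
  by_contra hcon
  push Not at hcon
  have hW : Computable W := by
    have h1 : ∀ k, W k = [E.eN .lend, E.eS (.R default), E.eN (.sym g0)] ++
        (Nat.bits k).reverse.map (fun b => E.eN (.sym (gb b))) ++ [E.eN .rend] := by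
      intro k
      change word E (initCf (inp k) : Cf Γ Λ) = _
      rw [word_initCf]
      simp [inp, Function.comp_def]
    have h2 : Primrec fun k : ℕ => [E.eN .lend, E.eS (.R default), E.eN (.sym g0)] ++
        (Nat.bits k).reverse.map (fun b => E.eN (.sym (gb b))) ++ [E.eN .rend] := by
      refine Primrec.list_append.comp (Primrec.list_append.comp (Primrec.const _) ?_)
        (Primrec.const _)
      refine Primrec.list_map (Primrec.list_reverse.comp Pool.Agent.OneRel.primrec_bits) ?_
      exact (Primrec.dom_finite (fun b : Bool => E.eN (.sym (gb b)))).comp Primrec.snd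
    exact (h2.to_comp).of_eq fun k => (h1 k).symm
  let G : ℕ →. Option ℕ := fun k => F (Fintype.card (NS Γ ⊕ St Λ), rels E M, W k)
  have hG : Partrec G :=
    hF.comp (Computable.pair (Computable.const _) (Computable.pair (Computable.const _) hW))
  have hval : ∀ k, ∃ r ∈ G k, value r = rankAb (D (vert E M (initCf (inp k)))) := by
    intro k
    exact hcon (W k) (isWord_word E _)
  have hdom : ∀ k, (G k).Dom := by
    intro k
    obtain ⟨r, hr, _⟩ := hval k
    exact Part.dom_iff_mem.2 ⟨r, hr⟩
  let g : ℕ → Option ℕ := fun k => (G k).get (hdom k)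
  have hg : Computable g := hG.of_eq fun k => (Part.some_get (hdom k)).symm
  have hg0 : ∀ k, g k = some 0 ↔
      ¬ (StateTransition.eval (TM0.step M) (TM0.init (inp k))).Dom := by
    intro k
    obtain ⟨r, hr, hv⟩ := hval k
    have h1 : g k = r := Part.get_eq_of_mem hr (hdom k)
    rw [h1, ← value_eq_zero, hv]
    exact rank_eq_zero_iff E M (inp k)
  apply hM
  classical
  refine ⟨fun k => Classical.dec _, ?_⟩
  have h3 : Computable fun k => !decide (g k = some 0) :=
    (Primrec.not.to_comp).comp ((Primrec.eq.decide.to_comp).comp hg (Computable.const _))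
  refine h3.of_eq fun k => ?_
  by_cases h : (StateTransition.eval (TM0.step M) (TM0.init (inp k))).Dom
  · have h4 : ¬ (g k = some 0) := fun h5 => (hg0 k).1 h5 h
    rw [decide_eq_false h4, decide_eq_true h]
    rfl
  · have h4 : g k = some 0 := (hg0 k).2 h
    rw [decide_eq_true h4, decide_eq_false h]
    rfl

end Pool.Agent.Results.MP_a5725c_al.RankNotComputable
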